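import Pool.Agent.Q120.ME.Stm

/-!
# Project ME: the variational inequality and the generating function
-/

set_option autoImplicit false

namespace Pool.Agent.Q26.ME

open Finset MeasureTheory Filter Pool.Agent.Q120.ET Pool.Agent.Q120.ME
open scoped Topology

theorem bern_pos {p : ℕ → ℝ} {F : Finset ℕ} (h : ∀ n ∈ F, 0 < p n ∧ p n < 1) (T : Finset ℕ) : 0 < bern p F T := by
  unfold bern
  refine prod_pos (fun n hn => ?_)
  by_cases hT : n ∈ T
  · rw [if_pos hT]; exact (h n hn).1
  · rw [if_neg hT]; linarith [(h n hn).2]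

theorem step {P q G Z : ℝ} (hP : 0 ≤ P) (hq : 0 < q) (hZ : 0 < Z) :
    P * G ≤ P * Real.log (P / q) + P * Real.log Z + (q * Real.exp G / Z - P) := by
  rcases hP.eq_or_lt with h0 | h0
  · rw [← h0]
    have := Real.exp_pos G
    have : 0 < q * Real.exp G / Z := by positivity
    simpa using this.le
  · have hy : 0 < q * Real.exp G / Z := by
      have := Real.exp_pos G
      positivity
    have h1 : Real.log (q * Real.exp G / Z / P) ≤ q * Real.exp G / Z / P - 1 :=
      Real.log_le_sub_one_of_pos (by positivity)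
    have h2 : Real.log (q * Real.exp G / Z / P) = Real.log q + G - Real.log Z - Real.log P := by
      rw [Real.log_div hy.ne' h0.ne', Real.log_div (by positivity) hZ.ne',
        Real.log_mul hq.ne' (Real.exp_pos G).ne', Real.log_exp]
    have h3 : Real.log (P / q) = Real.log P - Real.log q := Real.log_div h0.ne' hq.ne'
    rw [h2] at h1
    rw [h3]
    have h4 := mul_le_mul_of_nonneg_left h1 hP
    have h5 : P * (q * Real.exp G / Z / P - 1) = q * Real.exp G / Z - P := by
      field_simp
    rw [h5] at h4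
    nlinarith [h4]

theorem t_DV : J_DV := by
  intro p F hp Ω _ μ _ A hA G
  have hZ : 0 < ∑ T ∈ F.powerset, bern p F T * Real.exp (G T) := by
    refine sum_pos (fun T _ => mul_pos (bern_pos hp T) (Real.exp_pos _)) ⟨∅, ?_⟩
    simp
  have h1 : ∀ T ∈ F.powerset, lawOn μ A F T * G T ≤ lawOn μ A F T * Real.log (lawOn μ A F T / bern p F T)
      + lawOn μ A F T * Real.log (∑ T ∈ F.powerset, bern p F T * Real.exp (G T))
      + (bern p F T * Real.exp (G T) / (∑ T ∈ F.powerset, bern p F T * Real.exp (G T)) - lawOn μ A F T) :=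
    fun T _ => step measureReal_nonneg (bern_pos hp T) hZ
  refine (sum_le_sum h1).trans ?_
  rw [sum_add_distrib, sum_add_distrib, sum_sub_distrib, ← sum_mul, ← sum_div, sum_law hA F, div_self hZ.ne']
  unfold relEnt
  linarith

theorem gen_aux (p : ℕ → ℝ) (c : ℝ) (F : Finset ℕ) :
    ∑ T ∈ F.powerset, bern p F T * c ^ T.card = ∏ n ∈ F, (p n * c + (1 - p n)) := by
  rw [prod_add]
  refine sum_congr rfl (fun T hT => ?_)
  have hT' := mem_powerset.1 hT
  unfold bern
  rw [prod_mul_distrib, prod_const, ← prod_sdiff hT']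
  have h1 : ∏ n ∈ F \ T, (if n ∈ T then p n else 1 - p n) = ∏ n ∈ F \ T, (1 - p n) :=
    prod_congr rfl (fun n hn => if_neg (mem_sdiff.1 hn).2)
  have h2 : ∏ n ∈ T, (if n ∈ T then p n else 1 - p n) = ∏ n ∈ T, p n :=
    prod_congr rfl (fun n hn => if_pos hn)
  rw [h1, h2]
  ring

theorem t_GEN : J_GEN := by
  intro p F hp θ
  have h1 : ∑ T ∈ F.powerset, bern p F T * Real.exp (θ * T.card) = ∏ n ∈ F, (p n * Real.exp θ + (1 - p n)) := by
    rw [← gen_aux]
    refine sum_congr rfl (fun T _ => ?_)
    rw [mul_comm θ, Real.exp_nat_mul]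
  rw [h1, mul_sum, Real.exp_sum]
  refine prod_le_prod (fun n hn => ?_) (fun n hn => ?_)
  · have := Real.exp_pos θ
    have h2 := hp n hn
    nlinarith [mul_nonneg h2.1 this.le]
  · have := Real.add_one_le_exp ((Real.exp θ - 1) * p n)
    linarith

end Pool.Agent.Q26.ME
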